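import Pool.Agent.H77.SSA2.Main

/-!
# The dominating number can be smaller than the never selectively (a) cardinal

It is consistent with ZFC that `𝔡 < 𝔳_ssa`. There is a sentence `φ` of the language of set theory
which says this (`DominatingLtNeverSelectivelyA E` is what `φ` says in a structure `(N, E)`), and there
is a countable well-founded model of ZFC in which `φ` holds.

The definitions of the notions inside a structure (functions and sizes, dominating families,
almost disjoint families and their spaces, open covers, dense, closed and discrete sets, stars)
are in the file `Pool/Agent/H77/SSA2/Defs.lean`.

The forcing notion is a one step countable support forcing, defined in the universe of Lean. A
condition has countable height; below the height it contains functions `x ξ` (they give the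
almost disjoint family) and functions `z ξ` (they will be dominating), a countable set of slaloms
which all later functions `x ξ` avoid, and for countably many coordinates a system of statuses
which approximates the sets `P n` needed for the selectivity of the almost disjoint family with
respect to the sequence of covers coded by the coordinate. The coordinates code names of
functions with values in the ground model; they form an inductive type and the validity of
conditions is defined by recursion on it. Names of functions on the natural numbers are bounded
by functions of the ground model (fusion), and the model is a countable generic quotient of the
class of names over the universe of Lean.
-/

namespace Pool.Agent.Results.MP_32e568_lc.DominatingSmaller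

open SSA2

/-- It is consistent with ZFC that the dominating number is smaller than the never selectively
(a) cardinal. -/
theorem result :
    ∃ φ : Fml 0,
      (∀ (N : Type) (E : N → N → Prop),
        Sat E φ Fin.elim0 ↔ DominatingLtNeverSelectivelyA E) ∧
      ∃ (N : Type) (E : N → N → Prop), ZFC E ∧ Countable N ∧ WellFounded E ∧
        Sat E φ Fin.elim0 :=
  main

end Pool.Agent.Results.MP_32e568_lc.DominatingSmaller
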