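import Pool.Agent.H21.MV.SelectivelyDelta

/-! ### From a selectively (a) family to a selectively Delta set -/

set_option autoImplicit false

open Set Filter Cardinal

namespace Pool.Agent.Results.MP_32e568_lc.SelectivelyDelta

open Pool.H21.MV.SelectivelyDelta

/-- **Theorem.** For every cardinal `κ`, some almost disjoint family of size `κ` is selectively (a)
if and only if some set of reals of size `κ` is selectively Delta. Hence `𝔡 < 𝔳_ssa` if and only if
there is a selectively Delta set of reals of size exactly `𝔡`; in particular `𝔡 < 𝔳_ssa` as soon as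
there is a Q-set of reals of size `𝔡`. -/
theorem result :
    (∀ κ : Cardinal.{0}, (∃ A : Set (Set ℕ), AD A ∧ #A = κ ∧ SelectivelyA (Psi A)) ↔
      ∃ X : Set (ℕ → Bool), #X = κ ∧ SelDelta X) ∧
    (dom < vssa ↔ ∃ X : Set (ℕ → Bool), #X = dom ∧ SelDelta X) ∧
    ((∃ X : Set (ℕ → Bool), #X = dom ∧ ∀ S : Set X, IsGδ S) → dom < vssa) :=
  Pool.H21.MV.SelectivelyDelta.result

end Pool.Agent.Results.MP_32e568_lc.SelectivelyDelta
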